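import Pool.Agent.H505R3.SLM.Stmts

set_option autoImplicit false

/-! # TaskA: counting monomials without `z0` in a window of degrees -/

namespace Pool.Agent.H023R3.SLM

open Pool.Agent.H546R2.SL (Nm perN Ex mem_Ex finite_Ex)

variable {ι : Type} [Fintype ι] [DecidableEq ι]

/-- the low part: digits plus `e` times the monomial, away from `z0, z1` -/
def low (z0 z1 : ι) (e : ℕ) (d : {i : ι // i ≠ z0 ∧ i ≠ z1} → Fin e) (m : ι →₀ ℕ) (i : ι) : ℕ :=
  if h : i ≠ z0 ∧ i ≠ z1 then (d ⟨i, h⟩ : ℕ) + e * m i else 0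

/-- the full exponent vector, of total degree `B` -/
noncomputable def full (z0 z1 : ι) (e : ℕ) (d : {i : ι // i ≠ z0 ∧ i ≠ z1} → Fin e)
    (m : ι →₀ ℕ) (B : ℕ) : ι →₀ ℕ :=
  Finsupp.equivFunOnFinite.symm (fun i => low z0 z1 e d m i +
    (if i = z1 then B - ∑ j, low z0 z1 e d m j else 0))

lemma full_apply (z0 z1 : ι) (e : ℕ) (d : {i : ι // i ≠ z0 ∧ i ≠ z1} → Fin e)
    (m : ι →₀ ℕ) (B : ℕ) (i : ι) : full z0 z1 e d m B i = low z0 z1 e d m i +
    (if i = z1 then B - ∑ j, low z0 z1 e d m j else 0) := by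
  simp [full]

omit [Fintype ι] in
lemma low_le (z0 z1 : ι) (e : ℕ) (d : {i : ι // i ≠ z0 ∧ i ≠ z1} → Fin e)
    (m : ι →₀ ℕ) (i : ι) : low z0 z1 e d m i ≤ e + e * m i := by
  unfold low
  split_ifs with h
  · exact Nat.add_le_add_right (d ⟨i, h⟩).2.le _
  · exact Nat.zero_le _

lemma sum_low_le (z0 z1 : ι) (e : ℕ) (d : {i : ι // i ≠ z0 ∧ i ≠ z1} → Fin e)
    (m : ι →₀ ℕ) (T' : ℕ) (hm : ∑ i, m i ≤ T') :
    ∑ i, low z0 z1 e d m i ≤ e * (T' + Fintype.card ι) := by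
  calc ∑ i, low z0 z1 e d m i ≤ ∑ i, (e + e * m i) := Finset.sum_le_sum fun i _ => low_le _ _ _ _ _ _
    _ = e * Fintype.card ι + e * ∑ i, m i := by
        rw [Finset.sum_add_distrib, ← Finset.mul_sum, Finset.sum_const, Finset.card_univ,
          smul_eq_mul, mul_comm (Fintype.card ι) e]
    _ ≤ e * Fintype.card ι + e * T' := Nat.add_le_add_left (Nat.mul_le_mul_left _ hm) _
    _ = e * (T' + Fintype.card ι) := by ring

lemma sum_full (z0 z1 : ι) (e : ℕ) (d : {i : ι // i ≠ z0 ∧ i ≠ z1} → Fin e)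
    (m : ι →₀ ℕ) (B : ℕ) (hB : ∑ i, low z0 z1 e d m i ≤ B) :
    ∑ i, full z0 z1 e d m B i = B := by
  simp only [full_apply]
  rw [Finset.sum_add_distrib, Finset.sum_ite_eq' Finset.univ z1, if_pos (Finset.mem_univ _)]
  omega

lemma card_sub (z0 z1 : ι) (h : z0 ≠ z1) :
    Fintype.card {i : ι // i ≠ z0 ∧ i ≠ z1} = Fintype.card ι - 2 := by
  rw [Fintype.card_subtype]
  have : Finset.univ.filter (fun i : ι => i ≠ z0 ∧ i ≠ z1) = (Finset.univ.erase z0).erase z1 := by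
    ext i
    simp [and_comm]
  rw [this, Finset.card_erase_of_mem (Finset.mem_erase.2 ⟨h.symm, Finset.mem_univ _⟩),
    Finset.card_erase_of_mem (Finset.mem_univ _), Finset.card_univ]
  omega

theorem taskA : Pool.Agent.H505R3.SLM.TaskA := by
  intro ι _ _ z0 z1 h01 e M T' T he hT
  have hfin : Finite {μ : ι →₀ ℕ //
      μ z0 = 0 ∧ e * T + M ≤ ∑ i, μ i ∧ ∑ i, μ i ≤ e * T + T} := by
    apply Finite.of_injective (fun μ : {μ : ι →₀ ℕ //
      μ z0 = 0 ∧ e * T + M ≤ ∑ i, μ i ∧ ∑ i, μ i ≤ e * T + T} =>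
      (⟨μ.1, (mem_Ex _ _).2 μ.2.2.2⟩ : Ex ι (e * T + T)))
    intro a b hab
    exact Subtype.ext (congrArg (fun y : Ex ι (e * T + T) => y.1) hab)
  unfold Nm
  have hc : e ^ (Fintype.card ι - 2) * Nat.card (Ex ι T') =
      Nat.card (({i : ι // i ≠ z0 ∧ i ≠ z1} → Fin e) × Ex ι T') := by
    have h2 : Nat.card ({i : ι // i ≠ z0 ∧ i ≠ z1} → Fin e) = e ^ (Fintype.card ι - 2) := by
      rw [Nat.card_eq_fintype_card, Fintype.card_fun, Fintype.card_fin, card_sub z0 z1 h01]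
    rw [Nat.card_prod, h2]
  have hc2 : (T + 1) * Nat.card {μ : ι →₀ ℕ //
      μ z0 = 0 ∧ e * T + M ≤ ∑ i, μ i ∧ ∑ i, μ i ≤ e * T + T} =
      Nat.card (Fin (T + 1) × {μ : ι →₀ ℕ //
      μ z0 = 0 ∧ e * T + M ≤ ∑ i, μ i ∧ ∑ i, μ i ≤ e * T + T}) := by
    rw [Nat.card_prod, Nat.card_eq_fintype_card (α := Fin (T + 1)), Fintype.card_fin]
  rw [hc, hc2]
  have hle : ∀ (m : Ex ι T') (i : ι), m.1 i ≤ T' := by
    intro m i
    have h2 := m.2
    rw [mem_Ex] at h2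
    exact (Finset.single_le_sum (f := fun i => m.1 i) (fun _ _ => Nat.zero_le _)
      (Finset.mem_univ i)).trans h2
  have hs : ∀ (d : {i : ι // i ≠ z0 ∧ i ≠ z1} → Fin e) (m : Ex ι T'),
      ∑ i, low z0 z1 e d m.1 i ≤ e * T + M + m.1 z1 := by
    intro d m
    have h2 := m.2
    rw [mem_Ex] at h2
    have h3 := sum_low_le z0 z1 e d m.1 T' h2
    have h4 : e * (T' + Fintype.card ι) ≤ e * T := Nat.mul_le_mul_left _ (by omega)
    omega
  apply Nat.card_le_card_of_injective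
    (fun x : ({i : ι // i ≠ z0 ∧ i ≠ z1} → Fin e) × Ex ι T' =>
    ((⟨x.2.1 z0, by have := hle x.2 z0; omega⟩ : Fin (T + 1)),
      (⟨full z0 z1 e x.1 x.2.1 (e * T + M + x.2.1 z1), by
        refine ⟨?_, ?_, ?_⟩
        · rw [full_apply, if_neg h01, low, dif_neg (by simp)]
        · rw [sum_full z0 z1 e x.1 x.2.1 _ (hs x.1 x.2)]
          omega
        · rw [sum_full z0 z1 e x.1 x.2.1 _ (hs x.1 x.2)]
          have := hle x.2 z1
          omega⟩ : {μ : ι →₀ ℕ //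
      μ z0 = 0 ∧ e * T + M ≤ ∑ i, μ i ∧ ∑ i, μ i ≤ e * T + T})))
  rintro ⟨d, m⟩ ⟨d', m'⟩ hab
  have hz0 : m.1 z0 = m'.1 z0 := by
    have h1 := congrArg (fun y => ((Prod.fst y : Fin (T + 1)) : ℕ)) hab
    exact h1
  have hfull : full z0 z1 e d m.1 (e * T + M + m.1 z1) =
      full z0 z1 e d' m'.1 (e * T + M + m'.1 z1) := by
    have h1 := congrArg (fun y => (Prod.snd y).1) hab
    exact h1
  have hz1 : m.1 z1 = m'.1 z1 := by
    have h1 : ∑ i, full z0 z1 e d m.1 (e * T + M + m.1 z1) i =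
        ∑ i, full z0 z1 e d' m'.1 (e * T + M + m'.1 z1) i := by rw [hfull]
    rw [sum_full z0 z1 e d m.1 _ (hs d m), sum_full z0 z1 e d' m'.1 _ (hs d' m')] at h1
    omega
  have hlow : ∀ i (h : i ≠ z0 ∧ i ≠ z1),
      (d ⟨i, h⟩ : ℕ) + e * m.1 i = (d' ⟨i, h⟩ : ℕ) + e * m'.1 i := by
    intro i h
    have h1 := DFunLike.congr_fun hfull i
    rw [full_apply, full_apply, if_neg h.2, if_neg h.2, low, low, dif_pos h, dif_pos h] at h1
    exact h1
  have hd : ∀ i (h : i ≠ z0 ∧ i ≠ z1), (d ⟨i, h⟩ : ℕ) = d' ⟨i, h⟩ := by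
    intro i h
    have h1 := congrArg (fun y => y % e) (hlow i h)
    simp only [Nat.add_mul_mod_self_left] at h1
    rwa [Nat.mod_eq_of_lt (d ⟨i, h⟩).2, Nat.mod_eq_of_lt (d' ⟨i, h⟩).2] at h1
  have hm : ∀ i, m.1 i = m'.1 i := by
    intro i
    by_cases h0 : i = z0
    · rw [h0]; exact hz0
    by_cases h1 : i = z1
    · rw [h1]; exact hz1
    have h2 := hlow i ⟨h0, h1⟩
    rw [hd i ⟨h0, h1⟩] at h2
    exact Nat.eq_of_mul_eq_mul_left he (by omega)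
  apply Prod.ext
  · funext i
    exact Fin.ext (hd i.1 i.2)
  · apply Subtype.ext
    ext i
    exact hm i

end Pool.Agent.H023R3.SLM
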